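import Pool.Agent.Helper82.M2.WForm
import Pool.Agent.Helper31.SR.MilW
import Pool.Agent.Helper78.MEI.WS40
import Pool.Agent.Helper78.MEI.WS60
import Pool.Agent.Helper78.MEI.WS75

/-!
# Bodies of constant width one with circumradius outside `(0.6042, 0.612]`

For a convex body of constant width one in Euclidean three-space which is contained in a ball of
radius `0.6042` or in no ball of radius `0.612`, the volume is at least the volume
`π(2/3 - (√3/4) arccos (1/3))` of the Meissner bodies, with equality if and only if it is a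
Meissner body.
-/

namespace Pool.Agent.Results.MP_8bdc10_gt.CircumradiusWindow

open MeasureTheory Metric

theorem result (K : Set (EuclideanSpace ℝ (Fin 3))) (hcompact : IsCompact K)
    (hconvex : Convex ℝ K)
    (hwidth : ∀ u : EuclideanSpace ℝ (Fin 3), ‖u‖ = 1 →
      sSup ((fun x => inner ℝ x u) '' K) - sInf ((fun x => inner ℝ x u) '' K) = 1)
    (hcircum : (∃ x, K ⊆ closedBall x 0.6042) ∨ ¬ ∃ x, K ⊆ closedBall x 0.612) :
    ENNReal.ofReal (Real.pi * (2 / 3 - Real.sqrt 3 / 4 * Real.arccos (1 / 3))) ≤ volume K ∧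
      (volume K = ENNReal.ofReal (Real.pi * (2 / 3 - Real.sqrt 3 / 4 * Real.arccos (1 / 3))) ↔
        ∃ a : Fin 4 → EuclideanSpace ℝ (Fin 3), (∀ i j, i ≠ j → dist (a i) (a j) = 1) ∧
          ∃ c : Fin 3 → Bool, K = Helper96.MEI.MB a c) :=
  Helper82.M2.window_form (Pool.Agent.Helper31.SR.MilW.win612 Helper78.MEI.WS40.ws
    Helper78.MEI.WS60.ws Helper78.MEI.WS75.ws) K hcompact hconvex hwidth hcircum

end Pool.Agent.Results.MP_8bdc10_gt.CircumradiusWindow
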