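import Pool.Agent.Helper33.MEI.FullT
import Pool.Agent.Helper31.SR.MilR
import Pool.Agent.TOPR.Chain2

/-!
# Bodies of constant width one have at least the volume of the Meissner bodies

Every convex body of constant width one in Euclidean three-space has at least the volume
`π(2/3 - (√3/4) arccos (1/3))` of the Meissner bodies, with equality if and only if it is a
Meissner body.
-/

namespace Pool.Agent.Results.MP_8bdc10_gt.Meissner

open MeasureTheory

theorem result : ∀ K : Set (EuclideanSpace ℝ (Fin 3)), IsCompact K → Convex ℝ K →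
    (∀ u : EuclideanSpace ℝ (Fin 3), ‖u‖ = 1 →
      sSup ((fun x => inner ℝ x u) '' K) - sInf ((fun x => inner ℝ x u) '' K) = 1) →
    ENNReal.ofReal (Real.pi * (2 / 3 - Real.sqrt 3 / 4 * Real.arccos (1 / 3))) ≤ volume K ∧
      (volume K = ENNReal.ofReal (Real.pi * (2 / 3 - Real.sqrt 3 / 4 * Real.arccos (1 / 3))) ↔
        ∃ a : Fin 4 → EuclideanSpace ℝ (Fin 3), (∀ i j, i ≠ j → dist (a i) (a j) = 1) ∧
          ∃ c : Fin 3 → Bool, K = Helper96.MEI.MB a c) :=
  Pool.Agent.Helper33.MEI.FullT.meissner_of Pool.Agent.TOPR.Chain2.top_6042_6119 Pool.Agent.Helper31.SR.MilR.win6119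

end Pool.Agent.Results.MP_8bdc10_gt.Meissner
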