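import Pool.Agent.Helper82.CW.Rot

/-!
# Symmetric bodies of constant width

Bodies of constant width `1` whose symmetry group is not conjugate to a subgroup of the full
symmetry group of the regular tetrahedron have volume larger than the Meissner bodies.
-/

namespace Pool.Agent.Results.MP_8bdc10_gt.Symmetry

open MeasureTheory Metric

/-- rotation by the angle `t` about the line through `a` of direction `b 2` -/
noncomputable def rot (b : OrthonormalBasis (Fin 3) ℝ (EuclideanSpace ℝ (Fin 3)))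
    (a : EuclideanSpace ℝ (Fin 3)) (t : ℝ) (x : EuclideanSpace ℝ (Fin 3)) :
    EuclideanSpace ℝ (Fin 3) :=
  a + ((Real.cos t * inner ℝ (b 0) (x - a) - Real.sin t * inner ℝ (b 1) (x - a)) • b 0 +
    (Real.sin t * inner ℝ (b 0) (x - a) + Real.cos t * inner ℝ (b 1) (x - a)) • b 1 +
    (inner ℝ (b 2) (x - a)) • b 2)

/-- reflection in the plane through `a` orthogonal to `b 2` -/
noncomputable def mirror (b : OrthonormalBasis (Fin 3) ℝ (EuclideanSpace ℝ (Fin 3)))
    (a x : EuclideanSpace ℝ (Fin 3)) : EuclideanSpace ℝ (Fin 3) :=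
  a + ((inner ℝ (b 0) (x - a)) • b 0 + (inner ℝ (b 1) (x - a)) • b 1 +
    (-inner ℝ (b 2) (x - a)) • b 2)

/-- half-turn about the line through `a` of direction `b 0` -/
noncomputable def halfTurn (b : OrthonormalBasis (Fin 3) ℝ (EuclideanSpace ℝ (Fin 3)))
    (a x : EuclideanSpace ℝ (Fin 3)) : EuclideanSpace ℝ (Fin 3) :=
  a + ((inner ℝ (b 0) (x - a)) • b 0 + (-inner ℝ (b 1) (x - a)) • b 1 +
    (-inner ℝ (b 2) (x - a)) • b 2)

theorem result (K : Set (EuclideanSpace ℝ (Fin 3))) (hcompact : IsCompact K)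
    (hconvex : Convex ℝ K)
    (hwidth : ∀ u : EuclideanSpace ℝ (Fin 3), ‖u‖ = 1 →
      sSup ((fun x => inner ℝ x u) '' K) - sInf ((fun x => inner ℝ x u) '' K) = 1)
    (b : OrthonormalBasis (Fin 3) ℝ (EuclideanSpace ℝ (Fin 3))) (a : EuclideanSpace ℝ (Fin 3))
    (hsym : (∃ t : ℝ, (∀ m : ℤ, t ≠ m * Real.pi) ∧ (∀ m : ℤ, t ≠ m * (2 * Real.pi / 3)) ∧
        rot b a t '' K = K) ∨
      (fun x => a - (x - a)) '' K = K ∨
      (rot b a (2 * Real.pi / 3) '' K = K ∧ (mirror b a '' K = K ∨ halfTurn b a '' K = K))) :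
    ENNReal.ofReal 0.434 ≤ volume K ∧
    ENNReal.ofReal (Real.pi * (2 / 3 - Real.sqrt 3 / 4 * Real.arccos (1 / 3))) < volume K := by
  have hw : Helper80.CW.Width1 K := hwidth
  have hd := Helper82.CW.diam_le hcompact hw
  have hball : ∃ x0, K ⊆ closedBall x0 0.588 := by
    rcases hsym with ⟨t, h1, h2, h3⟩ | h | ⟨h1, h2⟩
    · obtain ⟨n, hn, hrot⟩ := Helper82.CW.angle_order b a hcompact h1 h2 h3
      exact Helper82.CW.rot_ball b a hd hn hrot
    · exact ⟨a, Helper82.CW.central_ball a hd h⟩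
    · exact ⟨a, Helper82.CW.three_ball b a hd h1 h2⟩
  obtain ⟨x0, hx0⟩ := hball
  have h2 := Helper82.CW.volume_circum hcompact hconvex hw (by norm_num) hx0
  have h3 := (ENNReal.ofReal_le_ofReal Helper82.CW.thr2).trans h2
  refine ⟨h3, lt_of_lt_of_le ?_ h3⟩
  have h5 := Helper82.CW.VM_lt
  unfold Helper82.CW.VM at h5
  rw [ENNReal.ofReal_lt_ofReal_iff (by norm_num)]
  linarith

end Pool.Agent.Results.MP_8bdc10_gt.Symmetry
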