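import Pool.Agent.Helper82.CW.Num

/-!
# Volume of bodies of constant width in a ball of radius `R`

If a convex body `K` of constant width `1` in `ℝ³` lies in a ball of radius `R`, then its volume is
at least `(π/6)(15 - 2σ)/(6 + σ)`, where `σ = r + √(9 + 30 r + r²)`, `r = min(R², 3/8) - 1/4`.
For `R ≤ 0.6026` this is larger than the volume of the Meissner bodies.
-/

namespace Pool.Agent.Results.MP_8bdc10_gt.VolumeCircumradius

open MeasureTheory Metric

theorem result (K : Set (EuclideanSpace ℝ (Fin 3))) (hcompact : IsCompact K)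
    (hconvex : Convex ℝ K)
    (hwidth : ∀ u : EuclideanSpace ℝ (Fin 3), ‖u‖ = 1 →
      sSup ((fun x => inner ℝ x u) '' K) - sInf ((fun x => inner ℝ x u) '' K) = 1)
    (x : EuclideanSpace ℝ (Fin 3)) (R r σ : ℝ) (hball : K ⊆ closedBall x R)
    (hr : r = min (R ^ 2) (3 / 8) - 1 / 4) (hσ : σ = r + Real.sqrt (9 + 30 * r + r ^ 2)) :
    ENNReal.ofReal (Real.pi / 6 * ((15 - 2 * σ) / (6 + σ))) ≤ volume K := by
  have hw : Helper80.CW.Width1 K := hwidth
  have hR0 : 0 ≤ R := by
    obtain ⟨y, hy⟩ := hw.nonempty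
    exact dist_nonneg.trans (mem_closedBall.1 (hball hy))
  have key : ∀ (x0 : EuclideanSpace ℝ (Fin 3)) (R0 : ℝ), R0 ≤ 1 → K ⊆ closedBall x0 R0 →
      R0 ^ 2 = min (R ^ 2) (3 / 8) →
      ENNReal.ofReal (Real.pi / 6 * ((15 - 2 * σ) / (6 + σ))) ≤ volume K := by
    intro x0 R0 h1 h2 h3
    have h4 := Helper82.CW.volume_circum hcompact hconvex hw h1 h2
    have h5 := Helper82.CW.half_le hcompact hw h1 h2
    rw [h3, ← hr, Helper82.CW.bound_form (by rw [hr, ← h3]; nlinarith)] at h4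
    have h6 : 6 + r + Real.sqrt (9 + 30 * r + r ^ 2) = 6 + σ := by
      rw [hσ]
      ring
    rw [h6, ← hσ] at h4
    exact h4
  rcases le_total (R ^ 2) (3 / 8) with h | h
  · refine key x R ?_ hball (min_eq_left h).symm
    nlinarith
  · obtain ⟨x0, hx0⟩ := Helper82.CW.jung_width hcompact hw
    refine key x0 (Real.sqrt (3 / 8)) ?_ hx0 ?_
    · rw [Real.sqrt_le_iff]
      norm_num
    · rw [min_eq_right h, Real.sq_sqrt (by norm_num)]

end Pool.Agent.Results.MP_8bdc10_gt.VolumeCircumradius
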